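import Pool.Agent.Helper47.FLG.Alg2
import Pool.Agent.Helper31.RFn.RP4
import Pool.Agent.Helper69.RFn.CL
import Pool.Agent.Helper90.RFn.LN

/-!
# Project FLG (MP_c98eff_gt), packet CPB: quantitative version of the second strictness statement

The set of normalised tensors and orthonormal complex pairs is compact; on it the continuous function
`max (qf R z w) (qf (Q R) z w)` is positive, hence bounded below.
-/

namespace Pool.Agent.Helper4.FLG

open Finset Pool.Agent.Helper47.RFn Pool.Agent.Helper47.FLG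

variable {n : ℕ}

theorem cont_qf : Continuous (fun p : T4 n × (Fin n → ℂ) × (Fin n → ℂ) => qf p.1 p.2.1 p.2.2) := by
  unfold qf
  fun_prop

theorem cont_qf' {X : Type*} [TopologicalSpace X] {f : X → T4 n} {g h : X → Fin n → ℂ} (hf : Continuous f)
    (hg : Continuous g) (hh : Continuous h) : Continuous (fun x => qf (f x) (g x) (h x)) := by
  unfold qf
  fun_prop

theorem cont_Q : Continuous (fun R : T4 n => Q R) := by
  unfold Q BB
  fun_prop

theorem cont_lam : Continuous (fun R : T4 n => lam R) := by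
  unfold lam Ric
  fun_prop

theorem cont_elk (k : ℕ) (v : Fin n → ℝ) (X : Fin k → Fin n → ℝ) : Continuous (fun R : T4 n => elk k R v X) := by
  unfold elk rq Ric K2
  fun_prop

theorem closed_FG : IsClosed {R : T4 n | FG R} := by
  have e : {R : T4 n | FG R} =
      {R : T4 n | ∀ a b c d, R a b c d = - R b a c d} ∩ ({R : T4 n | ∀ a b c d, R a b c d = - R a b d c} ∩
        ({R : T4 n | ∀ a b c d, R a b c d = R c d a b} ∩
          ({R : T4 n | ∀ a b c d, R a b c d + R b c a d + R c a b d = 0} ∩ {R : T4 n | ∀ z x y, 0 ≤ fl R z x y}))) := by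
    ext R
    constructor
    · rintro ⟨⟨h1, h2, h3, h4⟩, h5⟩
      exact ⟨h1, h2, h3, h4, h5⟩
    · rintro ⟨h1, h2, h3, h4, h5⟩
      exact ⟨⟨h1, h2, h3, h4⟩, h5⟩
  rw [e]
  refine IsClosed.inter ?_ (IsClosed.inter ?_ (IsClosed.inter ?_ (IsClosed.inter ?_ ?_)))
  · simp only [Set.ofPred_forall]
    refine isClosed_iInter fun a => isClosed_iInter fun b => isClosed_iInter fun c => isClosed_iInter fun d => ?_
    exact isClosed_eq (by fun_prop) (by fun_prop)
  · simp only [Set.ofPred_forall]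
    refine isClosed_iInter fun a => isClosed_iInter fun b => isClosed_iInter fun c => isClosed_iInter fun d => ?_
    exact isClosed_eq (by fun_prop) (by fun_prop)
  · simp only [Set.ofPred_forall]
    refine isClosed_iInter fun a => isClosed_iInter fun b => isClosed_iInter fun c => isClosed_iInter fun d => ?_
    exact isClosed_eq (by fun_prop) (by fun_prop)
  · simp only [Set.ofPred_forall]
    refine isClosed_iInter fun a => isClosed_iInter fun b => isClosed_iInter fun c => isClosed_iInter fun d => ?_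
    exact isClosed_eq (by fun_prop) (by fun_prop)
  · simp only [Set.ofPred_forall]
    refine isClosed_iInter fun a => isClosed_iInter fun b => isClosed_iInter fun c => ?_
    refine isClosed_le continuous_const ?_
    unfold fl K2
    fun_prop

theorem Q_smul (t : ℝ) (R : T4 n) : Q (t • R) = t ^ 2 • Q R := by
  funext a b c d
  simp only [Q, BB, Pi.smul_apply, smul_eq_mul]
  have h : ∀ a b c d, (∑ e, ∑ f, t * R a e b f * (t * R c e d f)) = t ^ 2 * ∑ e, ∑ f, R a e b f * R c e d f := by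
    intro a b c d
    rw [mul_sum]
    refine sum_congr rfl fun e _ => ?_
    rw [mul_sum]
    refine sum_congr rfl fun f _ => ?_
    ring
  rw [h, h, h, h]
  ring

theorem fl_smul (t : ℝ) (R : T4 n) (z x y : Fin n → ℝ) : fl (t • R) z x y = t * fl R z x y := by
  have h : ∀ u v, K2 (t • R) u v = t * K2 R u v := by
    intro u v
    unfold K2
    simp only [Pi.smul_apply, smul_eq_mul, mul_sum]
    refine sum_congr rfl fun a _ => sum_congr rfl fun b _ => sum_congr rfl fun c _ => sum_congr rfl fun d _ => ?_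
    ring
  unfold fl
  rw [h, h]
  ring

theorem elk_smul (t : ℝ) (R : T4 n) (k : ℕ) (v : Fin n → ℝ) (X : Fin k → Fin n → ℝ) :
    elk k (t • R) v X = t * elk k R v X := by
  have h : ∀ u v, K2 (t • R) u v = t * K2 R u v := by
    intro u v
    unfold K2
    simp only [Pi.smul_apply, smul_eq_mul, mul_sum]
    refine sum_congr rfl fun a _ => sum_congr rfl fun b _ => sum_congr rfl fun c _ => sum_congr rfl fun d _ => ?_
    ring
  have h2 : rq (Ric (t • R)) v = t * rq (Ric R) v := by
    have := (Pool.Agent.Helper90.RFn.goal_LN n)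
    obtain ⟨-, -, -, h4, -, -, -, -, -, -, -, -, h13, -⟩ := this
    rw [h4, h13]
  unfold elk
  rw [h2]
  simp only [h]
  rw [← mul_sum]
  ring

theorem FG_smul {t : ℝ} (ht : 0 ≤ t) {R : T4 n} (hR : FG R) : FG (t • R) := by
  refine ⟨(Pool.Agent.Helper47.RFn.goal_CL n).2.2.2.2.1 t R hR.1, fun z x y => ?_⟩
  rw [fl_smul]
  exact mul_nonneg ht (hR.2 z x y)

/-- the compact set -/
def KK (P : T4 n → Prop) : Set (T4 n × (Fin n → ℂ) × (Fin n → ℂ)) :=
  {p | FG p.1 ∧ lam p.1 = 1 ∧ P p.1 ∧ (∑ i, Complex.normSq (p.2.1 i)) = 1 ∧ (∑ i, Complex.normSq (p.2.2 i)) = 1 ∧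
    qf (Id4 n) p.2.1 p.2.2 = 1}

theorem compact_KK (hn : 4 ≤ n) (hFG2 : G_FG2) (P : T4 n → Prop) (hPc : IsClosed {R | P R}) : IsCompact (KK P) := by
  have hn0 : (0 : ℝ) ≤ n := Nat.cast_nonneg n
  refine Metric.isCompact_of_isClosed_isBounded ?_ ?_
  · have e : KK P = {p | FG p.1} ∩ ({p | lam p.1 = 1} ∩ ({p | P p.1} ∩
        ({p | (∑ i, Complex.normSq (p.2.1 i)) = 1} ∩ ({p | (∑ i, Complex.normSq (p.2.2 i)) = 1} ∩
          {p | qf (Id4 n) p.2.1 p.2.2 = 1})))) := by
      ext p
      rfl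
    rw [e]
    refine IsClosed.inter (closed_FG.preimage continuous_fst) (IsClosed.inter ?_ (IsClosed.inter
      (hPc.preimage continuous_fst) (IsClosed.inter ?_ (IsClosed.inter ?_ ?_))))
    · exact isClosed_eq (cont_lam.comp continuous_fst) continuous_const
    · refine isClosed_eq ?_ continuous_const
      refine continuous_finsetSum _ fun i _ => Complex.continuous_normSq.comp ?_
      fun_prop
    · refine isClosed_eq ?_ continuous_const
      refine continuous_finsetSum _ fun i _ => Complex.continuous_normSq.comp ?_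
      fun_prop
    · refine isClosed_eq ?_ continuous_const
      exact cont_qf' continuous_const (continuous_fst.comp continuous_snd) (continuous_snd.comp continuous_snd)
  · refine (Metric.isBounded_closedBall (x := (0 : T4 n × (Fin n → ℂ) × (Fin n → ℂ))) (r := max (n : ℝ) 1)).subset ?_
    rintro ⟨R, z, w⟩ ⟨h1, h2, -, h4, h5, -⟩
    simp only at h1 h2 h4 h5
    have hr0 : (0 : ℝ) ≤ max (n : ℝ) 1 := le_max_of_le_right zero_le_one
    have hv : ∀ u : Fin n → ℂ, (∑ i, Complex.normSq (u i)) = 1 → ‖u‖ ≤ max (n : ℝ) 1 := by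
      intro u hu
      refine (pi_norm_le_iff_of_nonneg hr0).2 fun i => le_max_of_le_right ?_
      have h6 : Complex.normSq (u i) ≤ 1 := by
        rw [← hu]
        exact single_le_sum (f := fun i => Complex.normSq (u i)) (fun j _ => Complex.normSq_nonneg _) (mem_univ i)
      rw [Complex.normSq_eq_norm_sq] at h6
      nlinarith [norm_nonneg (u i)]
    have hb := (hFG2 n hn R h1).2.1
    rw [Metric.mem_closedBall, dist_zero_right, Prod.norm_def, Prod.norm_def]
    refine max_le ?_ (max_le (hv z h4) (hv w h5))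
    refine (pi_norm_le_iff_of_nonneg hr0).2 fun a => (pi_norm_le_iff_of_nonneg hr0).2 fun b =>
      (pi_norm_le_iff_of_nonneg hr0).2 fun c => (pi_norm_le_iff_of_nonneg hr0).2 fun d => ?_
    rw [Real.norm_eq_abs]
    refine (hb a b c d).trans ?_
    rw [h2, mul_one]
    exact le_max_left _ _

/-- general compactness argument -/
theorem compact_core (hn : 4 ≤ n) (hFG2 : G_FG2) (hNW : G_NW) (P : T4 n → Prop) (hPc : IsClosed {R | P R})
    (hPs : ∀ c : ℝ, 0 < c → ∀ R, P R → P (c • R))
    (hpos : ∀ R, FG R → 0 < lam R → P R → ∀ z w, qf R z w = 0 → qf (Id4 n) z w ≠ 0 → 0 < qf (Q R) z w) :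
    ∃ c > 0, ∀ R : T4 n, FG R → 0 < lam R → P R → ∀ z w, qf R z w ≤ c * lam R * qf (Id4 n) z w →
      c * lam R ^ 2 * qf (Id4 n) z w ≤ qf (Q R) z w := by
  have hcomp := compact_KK hn hFG2 P hPc
  have hcont : Continuous (fun p : T4 n × (Fin n → ℂ) × (Fin n → ℂ) =>
      max (qf p.1 p.2.1 p.2.2) (qf (Q p.1) p.2.1 p.2.2)) := by
    refine Continuous.max ?_ ?_
    · exact cont_qf' continuous_fst (continuous_fst.comp continuous_snd) (continuous_snd.comp continuous_snd)
    · exact cont_qf' (cont_Q.comp continuous_fst) (continuous_fst.comp continuous_snd)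
        (continuous_snd.comp continuous_snd)
  obtain ⟨m, hm0, hm⟩ : ∃ m : ℝ, 0 < m ∧ ∀ p ∈ KK P, m ≤ max (qf p.1 p.2.1 p.2.2) (qf (Q p.1) p.2.1 p.2.2) := by
    rcases (KK P).eq_empty_or_nonempty with he | hne
    · exact ⟨1, one_pos, fun p hp => by rw [he] at hp; exact absurd hp (Set.notMem_empty p)⟩
    · obtain ⟨p, hp, hmin⟩ := hcomp.exists_isMinOn hne hcont.continuousOn
      refine ⟨_, ?_, fun q hq => hmin hq⟩
      obtain ⟨h1, h2, h3, h4, h5, h6⟩ := hp
      have hC0 := ((hNW n hn).2.1 p.1 h1).2 p.2.1 p.2.2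
      rcases hC0.eq_or_lt with h0 | h0
      · refine lt_max_of_lt_right ?_
        refine hpos p.1 h1 (by rw [h2]; exact one_pos) h3 _ _ h0.symm ?_
        rw [h6]
        exact one_ne_zero
      · exact lt_max_of_lt_left h0
  refine ⟨m / 2, by positivity, fun R hR hl hP z w hq => ?_⟩
  have hcurv : IsCurv R := hR.1
  have hcQ : IsCurv (Q R) := (Pool.Agent.Helper47.RFn.goal_CL n).1 R hcurv
  have hrp := (Pool.Agent.Helper47.RFn.goal_RP4 n).2.1 z w
  have hid := Pool.Agent.Helper31.RFn4.id_wedge z w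
  have hid0 : 0 ≤ qf (Id4 n) z w := by
    rw [hid]
    refine mul_nonneg (by norm_num) (sum_nonneg fun a _ => sum_nonneg fun b _ => Complex.normSq_nonneg _)
  by_cases h0 : qf (Id4 n) z w = 0
  · rw [h0, hrp.1 h0 _ hcQ, mul_zero]
  · obtain ⟨z', w', hz, hw, -, hI, hall⟩ := hrp.2 h0
    have hI0 : 0 < qf (Id4 n) z w := lt_of_le_of_ne hid0 (Ne.symm h0)
    have hLN := Pool.Agent.Helper90.RFn.goal_LN n
    obtain ⟨-, hsm, -, -, -, hlsm, -⟩ := hLN
    -- normalised tensor
    have hl1 : 0 < (lam R)⁻¹ := inv_pos.2 hl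
    have hmem : ((lam R)⁻¹ • R, z', w') ∈ KK P := by
      refine ⟨FG_smul hl1.le hR, ?_, hPs _ hl1 R hP, hz, hw, hI⟩
      show lam ((lam R)⁻¹ • R) = 1
      rw [hlsm, inv_mul_cancel₀ hl.ne']
    have hmm := hm _ hmem
    simp only at hmm
    rw [Q_smul, hsm, hsm] at hmm
    have e1 := hall R hcurv
    have e2 := hall (Q R) hcQ
    rw [e1] at hq
    rw [e2]
    have h1 : qf R z' w' ≤ m / 2 * lam R := by
      have : qf (Id4 n) z w * qf R z' w' ≤ qf (Id4 n) z w * (m / 2 * lam R) := by linarith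
      exact le_of_mul_le_mul_left this hI0
    have h2 : (lam R)⁻¹ * qf R z' w' ≤ m / 2 := by
      rw [inv_mul_le_iff₀ hl]
      linarith
    have h3 : m ≤ (lam R)⁻¹ ^ 2 * qf (Q R) z' w' := by
      rcases le_max_iff.1 hmm with h | h
      · linarith
      · exact h
    have h4 : m / 2 * lam R ^ 2 ≤ qf (Q R) z' w' := by
      have h5 : m / 2 ≤ (lam R)⁻¹ ^ 2 * qf (Q R) z' w' := by linarith
      rw [inv_pow, ← div_eq_inv_mul, le_div_iff₀ (by positivity)] at h5
      exact h5
    calc m / 2 * lam R ^ 2 * qf (Id4 n) z w = qf (Id4 n) z w * (m / 2 * lam R ^ 2) := by ring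
      _ ≤ qf (Id4 n) z w * qf (Q R) z' w' := mul_le_mul_of_nonneg_left h4 hI0.le

end Pool.Agent.Helper4.FLG

namespace Pool.Agent.Helper47.FLG

open Finset Pool.Agent.Helper47.RFn Pool.Agent.Helper4.FLG

theorem g_CPB (hSB : G_SB) (hFG2 : G_FG2) (hNW : G_NW) : G_CPB := by
  intro n hn κ hκ
  have h1 : IsClosed {R : T4 n | ∀ (k : ℕ) (v : Fin n → ℝ) (X : Fin k → Fin n → ℝ), 1 ≤ k → k + 2 ≤ n → nrm v = 1 →
      Con X → κ * lam R ≤ elk k R v X} := by
    simp only [Set.ofPred_forall]
    refine isClosed_iInter fun k => isClosed_iInter fun v => isClosed_iInter fun X => isClosed_iInter fun _ =>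
      isClosed_iInter fun _ => isClosed_iInter fun _ => isClosed_iInter fun _ => ?_
    exact isClosed_le (continuous_const.mul cont_lam) (cont_elk k v X)
  have h2 : ∀ t : ℝ, 0 < t → ∀ R : T4 n, (∀ (k : ℕ) (v : Fin n → ℝ) (X : Fin k → Fin n → ℝ), 1 ≤ k → k + 2 ≤ n →
      nrm v = 1 → Con X → κ * lam R ≤ elk k R v X) → (∀ (k : ℕ) (v : Fin n → ℝ) (X : Fin k → Fin n → ℝ), 1 ≤ k →
      k + 2 ≤ n → nrm v = 1 → Con X → κ * lam (t • R) ≤ elk k (t • R) v X) := by
    intro t ht R hP k v X h1 h2 h3 h4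
    rw [elk_smul, (Pool.Agent.Helper90.RFn.goal_LN n).2.2.2.2.2.1 t R]
    have := mul_le_mul_of_nonneg_left (hP k v X h1 h2 h3 h4) ht.le
    linarith
  obtain ⟨c, hc, h⟩ := compact_core hn hFG2 hNW
    (fun R : T4 n => ∀ (k : ℕ) (v : Fin n → ℝ) (X : Fin k → Fin n → ℝ), 1 ≤ k → k + 2 ≤ n → nrm v = 1 → Con X →
      κ * lam R ≤ elk k R v X) h1 h2 (by
        intro R hR hl hP z w h0 hne
        refine hSB n hn R hR hl ?_ z w h0 hne
        intro k v X h1 h2 h3 h4
        exact lt_of_lt_of_le (mul_pos hκ hl) (hP k v X h1 h2 h3 h4))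
  exact ⟨c, hc, fun R hR hl hP z w hq => h R hR hl hP z w hq⟩

end Pool.Agent.Helper47.FLG
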