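import Pool.Agent.Helper47.FLG.Fun

/-!
# Packet FLG-DMS: the diameter at the first bad time
-/

namespace Pool.Agent.Helper4.FLG

open Finset Pool.Agent.Helper47.RFn Pool.Agent.Helper73.RFn Pool.Agent.Helper47.FLG

/-- `RcF` is monotone in the constant. -/
theorem rcF_mono {n : ℕ} (hFhm : FhmStmt) {A θ : MF n} (hFr : Frm A θ) {x : EE n} (hx : x ≠ 0)
    {k k' : ℝ} (hkk : k ≤ k') (h : RcF k' A θ x) : RcF k A θ x := by
  intro v
  refine le_trans ?_ (h v)
  have h1 : ∑ a, nfc A a x ^ 2 = 1 := by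
    obtain ⟨-, -, -, -, -, -, -, -, -, -, -, h1, -⟩ := (hFhm n).1 A θ hFr
    exact h1 x hx
  have h2 : dot v (fun a => nfc A a x) ^ 2 ≤ nrm v := by
    have := Finset.sum_mul_sq_le_sq_mul_sq Finset.univ v (fun a => nfc A a x)
    rw [h1, mul_one] at this
    simpa [dot, nrm] using this
  exact mul_le_mul_of_nonneg_right hkk (by linarith)

theorem p_DMS (hHrf : HrfStmt) (hMys : MysStmt) (hFiv : FivStmt) (hFrc : G_FRC)
    (hFhm : FhmStmt) : DmsStmt := by
  intro n hn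
  obtain ⟨L, hL, hmys⟩ := hMys n (by omega)
  have h160 : (0 : ℝ) < Real.sqrt 160 := Real.sqrt_pos.2 (by norm_num)
  obtain ⟨c, hc, A1, hA1, hhrf⟩ := hHrf n hn (L * Real.sqrt 160) (by positivity)
  obtain ⟨CF, hCF, hfiv⟩ := hFiv n hn
  refine ⟨c, hc, A1, hA1, max 1 (L * Real.sqrt 160), le_max_left _ _, ?_⟩
  intro T l0 A θ hT hl0 hF hIni s y hs hsT hy hA hNQ x x' hx hx'
  obtain ⟨h, hSm, hgr, hhy, hlow⟩ := hhrf T l0 A θ hT hl0 hF hIni s y hs hsT hy hA hNQ
  have hFr : Frm (A s) (θ s) := ((hFhm n).2 (Set.Ico 0 T) A θ hF).1 s ⟨hs.le, hsT⟩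
  set lam : ℝ := lamf (A s) (θ s) y with hlamdef
  have hlam : 0 < lam := by
    by_contra hneg
    push Not at hneg
    have : s * lam ≤ 0 := mul_nonpos_of_nonneg_of_nonpos hs.le hneg
    linarith
  have hsl : 1 ≤ s * lam := by linarith
  have hslam : 0 < Real.sqrt lam := Real.sqrt_pos.2 hlam
  have hk : 0 < lam / 160 := by positivity
  have hsk : Real.sqrt (lam / 160) = Real.sqrt lam / Real.sqrt 160 := Real.sqrt_div hlam.le _
  have hLk : L / Real.sqrt (lam / 160) = L * Real.sqrt 160 / Real.sqrt lam := by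
    rw [hsk]
    field_simp
  have hFG : ∀ z, z ≠ 0 → FGF (A s) (θ s) z := fun z hz =>
    (hfiv T l0 A θ hT hl0 hF hIni s hs.le hsT z hz).2.1
  have hR0 : ∀ z, z ≠ 0 → RcF 0 (A s) (θ s) z := fun z hz =>
    (hFrc n hn (A s) (θ s) hFr z hz (hFG z hz)).2.2
  have hgd : gdist (gOf (θ s)) x x' ≤ L / Real.sqrt (lam / 160) := by
    refine hmys (A s) (θ s) hFr hR0 (lam / 160) h y hk hSm hgr hy hhy ?_ x x' hx hx'
    intro z hz hhz
    rw [hLk] at hhz
    have h10 := hlow z hz hhz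
    refine rcF_mono hFhm hFr hz ?_ (hFrc n hn (A s) (θ s) hFr z hz (hFG z hz)).2.1
    linarith
  refine hgd.trans ?_
  rw [hLk]
  have hss : 1 ≤ Real.sqrt s * Real.sqrt lam := by
    rw [← Real.sqrt_mul hs.le]
    exact Real.one_le_sqrt.2 hsl
  have h3 : L * Real.sqrt 160 / Real.sqrt lam ≤ L * Real.sqrt 160 * Real.sqrt s := by
    rw [div_le_iff₀ hslam]
    have h4 : 0 < L * Real.sqrt 160 := by positivity
    nlinarith [mul_le_mul_of_nonneg_left hss h4.le]
  exact h3.trans (mul_le_mul_of_nonneg_right (le_max_right _ _) (Real.sqrt_nonneg s))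

end Pool.Agent.Helper4.FLG
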