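import Pool.Agent.Helper47.FLG.Pde
import Pool.Agent.Helper70.RFn.EVK

/-!
# Project FLG (MP_c98eff_gt), packet EVG: dictionary for `R + bet I`
-/

namespace Pool.Agent.Helper4.FLG

open Finset Pool.Agent.Helper47.RFn Pool.Agent.Helper47.FLG

/-- a symmetric matrix which kills `ν` has the same norm as its restriction -/
theorem pull2_sq {n : ℕ} {ι : Ix n → Fin n → ℝ} {M : M2 (n + 1)}
    (h : ∀ i j, M i j = ∑ a, ∑ b, pull2 ι M a b * ι i a * ι j b) :
    ∑ i, ∑ j, M i j ^ 2 = ∑ a, ∑ b, pull2 ι M a b ^ 2 := by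
  have e1 : ∑ i, ∑ j, M i j ^ 2 = ∑ i, ∑ j, ∑ a, ∑ b, M i j * (pull2 ι M a b * ι i a * ι j b) := by
    refine sum_congr rfl fun i _ => sum_congr rfl fun j _ => ?_
    calc M i j ^ 2 = M i j * M i j := pow_two _
      _ = M i j * ∑ a, ∑ b, pull2 ι M a b * ι i a * ι j b := congrArg (fun x => M i j * x) (h i j)
      _ = ∑ a, ∑ b, M i j * (pull2 ι M a b * ι i a * ι j b) := by
        rw [mul_sum]
        refine sum_congr rfl fun a _ => ?_
        rw [mul_sum]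
  have e2 : ∀ a b, pull2 ι M a b ^ 2 = ∑ i, ∑ j, M i j * (pull2 ι M a b * ι i a * ι j b) := by
    intro a b
    have : pull2 ι M a b ^ 2 = pull2 ι M a b * ∑ i, ∑ j, M i j * ι i a * ι j b := by
      rw [pow_two]
      rfl
    rw [this, mul_sum]
    refine sum_congr rfl fun i _ => ?_
    rw [mul_sum]
    refine sum_congr rfl fun j _ => ?_
    ring
  rw [e1, sum_congr rfl fun a _ => sum_congr rfl fun b _ => e2 a b]
  calc ∑ i, ∑ j, ∑ a, ∑ b, M i j * (pull2 ι M a b * ι i a * ι j b)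
      = ∑ i, ∑ a, ∑ j, ∑ b, M i j * (pull2 ι M a b * ι i a * ι j b) :=
        sum_congr rfl fun i _ => sum_comm
    _ = ∑ a, ∑ i, ∑ j, ∑ b, M i j * (pull2 ι M a b * ι i a * ι j b) := sum_comm
    _ = ∑ a, ∑ i, ∑ b, ∑ j, M i j * (pull2 ι M a b * ι i a * ι j b) :=
        sum_congr rfl fun a _ => sum_congr rfl fun i _ => sum_comm
    _ = ∑ a, ∑ b, ∑ i, ∑ j, M i j * (pull2 ι M a b * ι i a * ι j b) :=
        sum_congr rfl fun a _ => sum_comm

end Pool.Agent.Helper4.FLG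

namespace Pool.Agent.Helper47.FLG

open Finset Pool.Agent.Helper47.RFn Pool.Agent.Helper47.RFn.EVKaux

theorem g_EVG (hRP2 : RFn.Goal_RP2) (hRP3 : RFn.Goal_RP3) (hPRD : RFn.Goal_PRD) (hEVM : RFn.Goal_EVM)
    (hSH : RFn.Goal_SH) (_hLN : RFn.Goal_LN) (hCL : RFn.Goal_CL) (hRIC : RFn.Goal_RIC) : G_EVG := by
  intro n hn T F hF hRF bet hbH z t ι hι
  obtain ⟨_, _, _, _, _, hHor, hQR⟩ := hRIC n T F hF
  obtain ⟨hp1, hp2⟩ := hPRD n T F
  obtain ⟨_, _, _, _, hPf, hIf, _⟩ := hp2 hF.toBase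
  have hadd : ∀ f g : F.B, F.Hop (f + g) = F.Hop f + F.Hop g := fun f g => (hp1 f g).2.1
  have hHR : ∀ a b c d, F.Hop (F.R a b c d) = (2 : ℝ) • F.QR a b c d := hEVM n T F hF hRF
  have hHbet : F.Hop bet = F.D bet := by
    unfold FB.Hop FB.Lap
    simp_rw [hbH]
    simp only [map_zero, Finset.sum_const_zero, sub_zero]
  have hHr := hHor z t
  obtain ⟨hcur, _, hRic, _, hlam, hQp, hQH, _⟩ := hRP2 n _ ι (F.rv z t) hι hHr
  obtain ⟨h1, h2, h3, h4, h5, h6, h7, h8, _⟩ := hRP3 n _ ι hι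
  obtain ⟨_, _, cI, cadd, csm, _, c7, _⟩ := hCL n
  obtain ⟨_, _, _, _, _, _, c7', _⟩ := hCL (n + 1)
  have e1 : (fun i j k l => F.ev z t (Sg F bet i j k l)) =
      F.rv z t + F.ev z t bet • wdg (Pm (F.nv z t)) (Pm (F.nv z t)) := by
    funext i j k l
    unfold Sg
    rw [map_add, map_mul, ev_I]
    rfl
  have e2 : (fun i j k l => F.ev z t (F.Hop (Sg F bet i j k l))) =
      (2 : ℝ) • Q (F.rv z t) + F.ev z t (F.D bet) • wdg (Pm (F.nv z t)) (Pm (F.nv z t)) := by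
    funext i j k l
    unfold Sg
    rw [hadd, hHR, hIf, hHbet, map_add, map_mul, ev_I, map_smul, hQR]
    rfl
  have hlamev : F.ev z t F.lam = lam (pull ι (F.rv z t)) := by
    rw [ev_lam, hlam]
  refine ⟨?_, ?_, ?_, ?_, hlamev, ?_, hcur⟩
  · rw [e1, h5, h6, h1]
  · rw [e1]
    exact h7 _ _ hHr (h8 _ _ h2)
  · rw [e2]
    exact h7 _ _ (h8 _ _ hQH) (h8 _ _ h2)
  · intro s hs
    rw [e2, h5, h6, h6, h1, ← hQp]
    have hsc : IsCurv s := by
      rw [hs]
      exact cadd _ _ hcur (csm _ _ cI)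
    have hsh := hSH n s (-(F.ev z t bet)) hsc
    have hr : s + (-(F.ev z t bet)) • Id4 n = pull ι (F.rv z t) := by
      rw [hs]
      module
    rw [hr] at hsh
    rw [hsh]
    module
  · -- the norm of the traceless Ricci tensor
    have hM : ∀ a b, F.ev z t (F.Ric0 a b) =
        (Ric (F.rv z t) - lam (pull ι (F.rv z t)) • Pm (F.nv z t)) a b := by
      intro a b
      unfold FB.Ric0
      rw [map_sub, map_mul, ev_P, ev_Ric, hlamev]
      rfl
    have hA : (Ric (F.rv z t) - lam (pull ι (F.rv z t)) • Pm (F.nv z t)).IsSymm :=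
      (c7' _ hHr.1).1.sub ((Pm_symm _).smul _)
    have hAn : ∀ i, ∑ j, (Ric (F.rv z t) - lam (pull ι (F.rv z t)) • Pm (F.nv z t)) i j * F.nv z t j = 0 := by
      intro i
      have e : ∑ j, (Ric (F.rv z t) - lam (pull ι (F.rv z t)) • Pm (F.nv z t)) i j * F.nv z t j =
          (∑ j, Ric (F.rv z t) i j * F.nv z t j) -
            lam (pull ι (F.rv z t)) * ∑ j, Pm (F.nv z t) i j * F.nv z t j := by
        rw [Finset.mul_sum, ← Finset.sum_sub_distrib]
        refine Finset.sum_congr rfl fun j _ => ?_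
        show (Ric (F.rv z t) i j - lam (pull ι (F.rv z t)) * Pm (F.nv z t) i j) * F.nv z t j = _
        ring
      rw [e, Ric_nu hHr, Pm_nu hι.nn]
      ring
    obtain ⟨_, _, g3⟩ := h4 _ hA hAn
    have hpull : pull2 ι (Ric (F.rv z t) - lam (pull ι (F.rv z t)) • Pm (F.nv z t)) =
        Ric0 (pull ι (F.rv z t)) := by
      rw [pull2_lin, ← hRic, h3]
      rfl
    unfold hB hh
    rw [map_sum]
    simp_rw [map_sum, map_pow, hM]
    rw [Pool.Agent.Helper4.FLG.pull2_sq g3, hpull]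

end Pool.Agent.Helper47.FLG
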